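import Mathlib
import Pool.Prelude.Def_F_c31e40fa
import Pool.Agent.Q186.Cen.Lyap
import Pool.Agent.Y298.EX.All
import Pool.Agent.Y272.GA.Brg

set_option autoImplicit false

/-! # The exponent of approximation by superattracting parameters of bounded period

At a point `c₀` of the Multibrot set the distance to the superattracting parameters of period at
most `N + 1` is at most a universal constant over the derivative of the critical orbit with respect
to the parameter, at any of the times up to `N`. If the critical value of `z ^ d + c₀` has a positive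
Lyapunov exponent `χ`, this distance is `exp (-(χ + o(1)) N)`. -/

open Filter Topology Set Metric N62a1eb23

namespace Pool.Agent.Results.MP_af9036_an.CentreExponent

open Pool.Agent.H713R2 (IsExteriorMap)

/-- The map `z ↦ z ^ d + c`. -/
def f (d : ℕ) (c : ℂ) : ℂ → ℂ := fun z => z ^ d + c

/-- `c` is a superattracting parameter of period at most `N`: the critical point `0` is periodic of a
period `p ≤ N`, and so it lies on an attracting cycle. -/
def Centre (d N : ℕ) (c : ℂ) : Prop :=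
  ∃ p : ℕ, 1 ≤ p ∧ p ≤ N ∧ (f d c)^[p] 0 = 0 ∧ IsAttractingCycle (f d c) p 0

/-- There is an absolute constant `C` such that for every `d ≥ 2`:

(1) for every `c₀` in the Multibrot set and every `N` there is a superattracting parameter `c'` of
period at most `N + 1` such that `|c' - c₀| · |∂ f_c^k(0) / ∂c (c₀)| ≤ C` for all `k ≤ N`;

(2) if the critical value of `z ^ d + c₀`, `c₀` in the Multibrot set, has the Lyapunov exponent
`χ > 0`, then the distance `dist_N` of `c₀` to the superattracting parameters of period at most `N`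
satisfies `(1 / N) log dist_N → -χ`;

(3) for the exterior map `ψ` of the Multibrot set and for almost every angle `θ`, the parameter ray
of angle `θ` lands at a boundary point `c₀` with `(1 / N) log dist_N → -log d`. -/
theorem result : ∃ C : ℝ, ∀ d : ℕ, 2 ≤ d →
    (∀ c₀ ∈ multibrotSet d, ∀ N : ℕ, ∃ c' : ℂ, Centre d (N + 1) c' ∧
      ∀ k ≤ N, ‖c' - c₀‖ * ‖deriv (fun c : ℂ => (f d c)^[k] 0) c₀‖ ≤ C) ∧
    (∀ χ : ℝ, 0 < χ → ∀ c₀ ∈ multibrotSet d,
      Tendsto (fun n : ℕ => Real.log ‖deriv ((f d c₀)^[n]) c₀‖ / n) atTop (𝓝 χ) →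
      Tendsto (fun N : ℕ => Real.log (infDist c₀ {c | Centre d N c}) / N) atTop (𝓝 (-χ))) ∧
    (∃ ψ : ℂ → ℂ, IsExteriorMap (multibrotSet d) ψ) ∧
    ∀ ψ : ℂ → ℂ, IsExteriorMap (multibrotSet d) ψ →
      ∀ᵐ θ : ℝ, ∃ c₀ ∈ frontier (multibrotSet d),
        Tendsto (fun r : ℝ => ψ (r * Complex.exp (θ * Complex.I))) (𝓝[>] 1) (𝓝 c₀) ∧
        Tendsto (fun N : ℕ => Real.log (infDist c₀ {c | Centre d N c}) / N) atTop
          (𝓝 (-Real.log d)) := by
  refine ⟨8 * Pool.Agent.Q186.Cen.SB (1 / 2), fun d hd => ?_⟩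
  have hcen : ∀ (N : ℕ), {c | Centre d N c} = {c | Pool.Agent.Q186.Cen.Cn d N c} := by
    intro N
    ext c
    constructor
    · rintro ⟨p, h1, h2, h3, h4⟩
      exact ⟨p, h1, h2, h3⟩
    · intro h
      obtain ⟨h1, p, h2, h3, h4, h5⟩ := Pool.Agent.Q186.Cen.cn_cycle hd h
      exact ⟨p, h2, h3, h4, h5⟩
  have key : ∀ χ : ℝ, 0 < χ → ∀ c₀ ∈ multibrotSet d,
      Tendsto (fun n : ℕ => Real.log ‖deriv ((f d c₀)^[n]) c₀‖ / n) atTop (𝓝 χ) →
      Tendsto (fun N : ℕ => Real.log (infDist c₀ {c | Centre d N c}) / N) atTop (𝓝 (-χ)) := by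
    intro χ hχ c₀ hc₀ hlim
    have h : Pool.Agent.Y298.CA.Lyap d χ c₀ := ⟨hχ, hc₀, hlim⟩
    simp only [hcen]
    exact Pool.Agent.Q186.Cen.exponent hd h
  refine ⟨?_, key, ?_⟩
  · intro c₀ hc₀ N
    obtain ⟨c', h1, h2⟩ := Pool.Agent.Q186.Cen.cauchyB hd hc₀ N
    have h3 : c' ∈ {c | Centre d (N + 1) c} := by rw [hcen]; exact h1
    exact ⟨c', h3, h2⟩
  · obtain ⟨β, hβ⟩ := Pool.Agent.H713R2.exists_beta (d := d) hd
    refine ⟨⟨_, Pool.Agent.H713R2.exteriorMap_of_beta hβ⟩, ?_⟩
    intro ψ hψ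
    filter_upwards [Pool.Agent.Y272.TY.ae_neg' (Pool.Agent.Y272.TY.typical_all hd hβ)] with θ hθ
    obtain ⟨c₀, A, R, h⟩ := hθ
    obtain ⟨h1, h2, h3⟩ := Pool.Agent.Y298.CA.lyap_of_typ hd hβ h
    exact ⟨c₀, h.frontier hd hβ, h.tendsto_psi hβ hψ, key _ h1 c₀ h2 h3⟩

end Pool.Agent.Results.MP_af9036_an.CentreExponent
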