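import Mathlib
import Pool.Prelude.Def_F_c31e40fa
import Pool.Agent.Y298.CA.ScaAll

/-!
# Superlinear density of hyperbolicity at the Collet-Eckmann parameters of `z ^ d + c`, all degrees

The starting result `MP_c35c17_an.ColletEckmannDensity` is about the degree `d = 2`. Here `d ≥ 2` is
arbitrary. For a Collet-Eckmann parameter `c₀` of the Multibrot set `M_d` and every `c` in `M_d`: the
distance of `c` to the superattracting parameters and to the complement of `M_d`, and the speed at `c`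
of every holomorphic disc in a connected open set of parameters without attracting cycles (or in
`M_d`), are at most `C |c - c₀| ^ σ`, and the area of the filled Julia set of `z ^ d + c` is at most
`C |c - c₀| ^ (2 σ / d)`. Here `σ > 1` is given by the growth of the derivatives at the critical value
and by the recurrence of the critical orbit, with the natural upper bound `d / (d - 1)` (the exponent
of the Misiurewicz parameters), and `C` depends only on the constants in the hypotheses.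

The mathematics is in the modules `Pool.Agent.Y298.CD.*` of the starting tree (for `d ≥ 3` it was not
handed in there).
-/

set_option autoImplicit false

open Set Filter Metric MeasureTheory Topology
open N62a1eb23 (multibrotSet IsAttractingCycle)
open Pool.Agent.H713R2 (IsExteriorMap)

namespace Pool.Agent.Results.MP_af9036_an.ColletEckmannAllDegrees

/-- The map `z ↦ z ^ d + c`. -/
def f (d : ℕ) (c : ℂ) : ℂ → ℂ := fun z => z ^ d + c

/-- The filled Julia set of `z ^ d + c`. -/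
def filledJulia (d : ℕ) (c : ℂ) : Set ℂ :=
  {z | ¬ Tendsto (fun k => (f d c)^[k] z) atTop (Bornology.cobounded ℂ)}

/-- `c` is superattracting: the critical point `0` is periodic, and lies on an attracting cycle. -/
def Centre (d : ℕ) (c : ℂ) : Prop :=
  ∃ p : ℕ, 1 ≤ p ∧ (f d c)^[p] 0 = 0 ∧ IsAttractingCycle (f d c) p 0

/-- The Collet-Eckmann condition with explicit constants: `c` lies in the Multibrot set and the
derivatives of the iterates of `f d c` at the critical value `c` are at least `lam ^ n / C₁`. -/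
def ColletEckmann (d : ℕ) (C₁ lam : ℝ) (c : ℂ) : Prop :=
  c ∈ multibrotSet d ∧ ∀ n : ℕ, lam ^ n ≤ C₁ * ‖deriv ((f d c)^[n]) c‖

/-- The critical orbit does not come close to the critical point: the distance at the time `n` is at
least `1 / C₂` times the power `-β` of the derivative. -/
def SlowRecurrence (d : ℕ) (C₂ β : ℝ) (c : ℂ) : Prop :=
  ∀ n : ℕ, 1 ≤ C₂ * (‖(f d c)^[n] c‖ * ‖deriv ((f d c)^[n]) c‖ ^ β)

/-- The bounds at `c` in terms of the distance of `c` to `c₀`, with the exponent `σ`: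
(1) the area of the filled Julia set; (2) the nearest superattracting parameter; (3) the nearest
parameter outside of the Multibrot set; (4) the speed of the holomorphic discs through `c` in a
connected open set `V` which contains no parameter with an attracting cycle, or is contained in the
Multibrot set. -/
def Close (d : ℕ) (C σ : ℝ) (c₀ c : ℂ) : Prop :=
  volume (filledJulia d c) ≤ ENNReal.ofReal (C * ‖c - c₀‖ ^ (2 * σ / d)) ∧
  (∃ c' : ℂ, Centre d c' ∧ ‖c' - c‖ ≤ C * ‖c - c₀‖ ^ σ) ∧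
  (∃ c' : ℂ, c' ∉ multibrotSet d ∧ ‖c' - c‖ ≤ C * ‖c - c₀‖ ^ σ) ∧
  ∀ V : Set ℂ, IsOpen V → IsPreconnected V →
    ((∀ c' ∈ V, ¬ ∃ m z, IsAttractingCycle (f d c') m z) ∨ V ⊆ multibrotSet d) →
    ∀ γ : ℂ → ℂ, DifferentiableOn ℂ γ (ball 0 1) → (∀ t ∈ ball (0 : ℂ) 1, γ t ∈ V) → γ 0 = c →
      ‖deriv γ 0‖ ≤ C * ‖c - c₀‖ ^ σ

/-- Let `d ≥ 2`. (1) For all constants `C₁ ≥ 1`, `lam > 1` and every `σ ≥ 0` with
`σ (1 - log lam / (d log (2 d))) < 1`, the bounds with the exponent `σ` hold at all parameters `c` of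
the Multibrot set, for all Collet-Eckmann parameters `c₀` with these constants, with the same
constant `C`; here `σ > 1` is possible. (2) If moreover the recurrence is slow with the constants
`C₂` and `β ≥ 0`, they hold for `σ (d - 1) (1 + β) < d`. (3) For the exterior map `ψ` of the
Multibrot set and almost every angle `θ`, the parameter ray of angle `θ` lands at a boundary point
`c₀` at which the bounds hold for every `σ < d / (d - 1)`. -/
theorem result (d : ℕ) (hd : 2 ≤ d) :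
    (∀ C₁ lam : ℝ, 1 ≤ C₁ → 1 < lam →
      (∀ σ : ℝ, 0 ≤ σ → σ * (1 - Real.log lam / (d * Real.log (2 * d))) < 1 →
        ∃ C : ℝ, 0 < C ∧ ∀ c₀ : ℂ, ColletEckmann d C₁ lam c₀ →
          ∀ c ∈ multibrotSet d, c ≠ c₀ → Close d C σ c₀ c) ∧
      ∃ σ : ℝ, 1 < σ ∧ σ * (1 - Real.log lam / (d * Real.log (2 * d))) < 1) ∧
    (∀ C₁ lam C₂ β σ : ℝ, 1 ≤ C₁ → 1 < lam → 0 ≤ β → 0 ≤ σ → σ * ((d - 1) * (1 + β)) < d →
      ∃ C : ℝ, 0 < C ∧ ∀ c₀ : ℂ, ColletEckmann d C₁ lam c₀ → SlowRecurrence d C₂ β c₀ →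
        ∀ c ∈ multibrotSet d, c ≠ c₀ → Close d C σ c₀ c) ∧
    (∃ ψ : ℂ → ℂ, IsExteriorMap (multibrotSet d) ψ) ∧
    ∀ ψ : ℂ → ℂ, IsExteriorMap (multibrotSet d) ψ →
      ∀ᵐ θ : ℝ, ∃ c₀ ∈ frontier (multibrotSet d),
        Tendsto (fun r : ℝ => ψ (r * Complex.exp (θ * Complex.I))) (𝓝[>] 1) (𝓝 c₀) ∧
        ∀ σ : ℝ, 0 ≤ σ → σ < d / (d - 1) → ∃ C : ℝ, 0 < C ∧
          ∀ c ∈ multibrotSet d, c ≠ c₀ → Close d C σ c₀ c := by
  have hdR : (2 : ℝ) ≤ d := by exact_mod_cast hd
  have hd1 : 0 < (d : ℝ) - 1 := by linarith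
  have hgen : ∀ C₁ lam C₂ β σ : ℝ, 1 ≤ C₁ → 1 < lam → 0 ≤ β → 0 ≤ σ →
      σ * ((d - 1) * (1 + β)) < d →
      ∃ C : ℝ, 0 < C ∧ ∀ c₀ : ℂ, ColletEckmann d C₁ lam c₀ → SlowRecurrence d C₂ β c₀ →
        ∀ c ∈ multibrotSet d, c ≠ c₀ → Close d C σ c₀ c := by
    intro C₁ lam C₂ β σ hC₁ hlam hβ hσ0 hσ
    by_cases hC₂ : 0 < C₂
    · have ht0 : 0 ≤ σ * (d - 1) / d := by positivity
      have ht : σ * (d - 1) / d * (1 + β) < 1 := by
        rw [div_mul_eq_mul_div, div_lt_one (by positivity)]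
        linarith
      obtain ⟨C, hC, H⟩ := Pool.Agent.Y298.SH.CD.upper hd C₁ lam hC₂ hβ ht0 ht
      have e1 : 2 * (σ * ((d : ℝ) - 1) / d) / ((d : ℝ) - 1) = 2 * σ / d := by
        field_simp
      have e2 : (d : ℝ) * (σ * ((d : ℝ) - 1) / d) / ((d : ℝ) - 1) = σ := by
        field_simp
      rw [e1, e2] at H
      refine ⟨C, hC, fun c₀ h₀ hrec c hc hcc => ?_⟩
      obtain ⟨h1, ⟨c₁, h2, p, h3, h4, h5⟩, ⟨c₂, h6, h7⟩, h8⟩ := H c₀
        (Pool.Agent.Y298.SH.CD.cep_of_mem hd hC₁ hlam h₀.1 h₀.2) hrec c hc hcc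
      exact ⟨h1, ⟨c₁, ⟨p, h3, h4, h5⟩, h2⟩, ⟨c₂, h7, h6⟩, h8⟩
    · refine ⟨1, one_pos, fun c₀ h₀ hrec c hc hcc => ?_⟩
      exfalso
      have h1 := hrec 0
      have h2 : 0 ≤ ‖(f d c₀)^[0] c₀‖ * ‖deriv ((f d c₀)^[0]) c₀‖ ^ β := by positivity
      nlinarith [not_lt.mp hC₂]
  have hlog : 0 < Real.log (2 * d) := Real.log_pos (by linarith)
  refine ⟨?_, hgen, ?_⟩
  · intro C₁ lam hC₁ hlam
    have hll : 0 < Real.log lam := Real.log_pos hlam
    refine ⟨?_, ?_⟩
    · intro σ hσ0 hσ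
      by_cases h4 : lam ≤ 2 * d
      · have h5 : Real.log lam ≤ Real.log (2 * d) := Real.log_le_log (by linarith) h4
        obtain ⟨C, hC, H⟩ := hgen C₁ lam ((d * C₁) ^ (((d : ℝ) - 1)⁻¹))
          ((1 - Real.log lam / Real.log (2 * d)) / ((d : ℝ) - 1)) σ hC₁ hlam (by
            apply div_nonneg _ hd1.le
            rw [sub_nonneg, div_le_one hlog]
            exact h5) hσ0 (by
            have h6 : ((d : ℝ) - 1) *
                (1 + (1 - Real.log lam / Real.log (2 * d)) / ((d : ℝ) - 1)) =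
                d * (1 - Real.log lam / (d * Real.log (2 * d))) := by
              field_simp
              ring
            rw [h6]
            nlinarith)
        refine ⟨C, hC, fun c₀ h₀ c hc hcc => H c₀ h₀ ?_ c hc hcc⟩
        exact (Pool.Agent.Y298.SH.CD.cep_of_mem hd hC₁ hlam h₀.1 h₀.2).recB
      · refine ⟨1, one_pos, fun c₀ h₀ c hc hcc => ?_⟩
        exact absurd (Pool.Agent.Y298.SH.CD.cep_of_mem hd hC₁ hlam h₀.1 h₀.2).lam_le h4
    · set q : ℝ := Real.log lam / (d * Real.log (2 * d)) with hq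
      have hq0 : 0 < q := by positivity
      rcases le_or_gt 1 q with h | h
      · exact ⟨2, by norm_num, by nlinarith⟩
      · refine ⟨1 / (1 - q / 2), ?_, ?_⟩
        · rw [lt_div_iff₀ (by linarith)]
          linarith
        · rw [div_mul_eq_mul_div, one_mul, div_lt_one (by linarith)]
          linarith
  · obtain ⟨β, hβ⟩ := Pool.Agent.H713R2.exists_beta (d := d) hd
    refine ⟨⟨_, Pool.Agent.H713R2.exteriorMap_of_beta hβ⟩, ?_⟩
    intro ψ hψ
    filter_upwards [Pool.Agent.Y272.TY.ae_neg' (Pool.Agent.Y272.TY.typical_all hd hβ)] with θ hθ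
    obtain ⟨c₀, A, R, h⟩ := hθ
    have hL := Pool.Agent.Y298.CA.lyap_of_typ hd hβ h
    obtain ⟨⟨C₁, lam, hce⟩, -⟩ := Pool.Agent.Y674.CA.lya d _ c₀ hd hL
    refine ⟨c₀, h.frontier hd hβ, h.tendsto_psi hβ hψ, ?_⟩
    intro σ hσ0 hσ
    rw [lt_div_iff₀ hd1] at hσ
    rcases hσ0.eq_or_lt with h0 | hσpos
    · obtain ⟨C₂, hC₂, hrec⟩ := Pool.Agent.Y298.CA.rec_of_lya Pool.Agent.Y674.CA.lya hd hL
        (b := 1) one_pos
      obtain ⟨C, hC, H⟩ := hgen C₁ lam C₂ 1 σ hce.C1 hce.lam1 zero_le_one hσ0 (by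
        rw [← h0, zero_mul]
        linarith)
      exact ⟨C, hC, fun c hc hcc => H c₀ ⟨hL.2.1, hce.exp⟩ hrec c hc hcc⟩
    · set b : ℝ := (d / (σ * (d - 1)) - 1) / 2 with hb
      have hs : 0 < σ * ((d : ℝ) - 1) := by positivity
      have h1 : 1 < d / (σ * ((d : ℝ) - 1)) := by
        rw [lt_div_iff₀ hs]
        linarith
      have hb0 : 0 < b := by rw [hb]; linarith
      obtain ⟨C₂, hC₂, hrec⟩ := Pool.Agent.Y298.CA.rec_of_lya Pool.Agent.Y674.CA.lya hd hL hb0
      obtain ⟨C, hC, H⟩ := hgen C₁ lam C₂ b σ hce.C1 hce.lam1 hb0.le hσ0 (by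
        have h2 : σ * (((d : ℝ) - 1) * (1 + b)) = σ * (d - 1) * (1 + b) := by ring
        rw [h2]
        have h3 : 1 + b < d / (σ * ((d : ℝ) - 1)) := by rw [hb]; linarith
        calc σ * ((d : ℝ) - 1) * (1 + b) < σ * (d - 1) * (d / (σ * (d - 1))) :=
              mul_lt_mul_of_pos_left h3 hs
          _ = d := by field_simp)
      exact ⟨C, hC, fun c hc hcc => H c₀ ⟨hL.2.1, hce.exp⟩ hrec c hc hcc⟩

end Pool.Agent.Results.MP_af9036_an.ColletEckmannAllDegrees
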