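import Mathlib
import Pool.Prelude.Def_F_c31e40fa
import Pool.Agent.Q186.Cusp.Law

/-!
# Superattracting parameters near the cusp of the Multibrot sets: the exact law

Let `s = d ^ (- 1 / (d - 1))`. The map `z ^ d + κ` with `κ = s - s ^ d` has the parabolic fixed point
`s`, of multiplier one; `κ` is the cusp of the main hyperbolic component of the Multibrot set (`1 / 4`
for the Mandelbrot set). Let `A = (d - 1) / (2 s)` (`A = 1` for `d = 2`). The superattracting
parameters of period at most `N` do not come closer to the cusp than `(1 - o(1)) π ^ 2 / (A N ^ 2)`,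
the distance is asymptotic to this, and the number of those at distance at most `(a / N) ^ 2` grows
exponentially for every `a > π / √A`, with the exact rate `(1 - π / (a √A)) log d`. The bounds are
uniform in the distance and in the period.
-/

set_option autoImplicit false

open Filter Topology Set Metric N62a1eb23

namespace Pool.Agent.Results.MP_af9036_an.CuspLaw

/-- The map `z ↦ z ^ d + c`. -/
def f (d : ℕ) (c : ℂ) : ℂ → ℂ := fun z => z ^ d + c

/-- `c` is a superattracting parameter of period at most `N`: the critical point `0` is periodic of a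
period `p ≤ N`, and so it lies on an attracting cycle. -/
def Centre (d N : ℕ) (c : ℂ) : Prop :=
  ∃ p : ℕ, 1 ≤ p ∧ p ≤ N ∧ (f d c)^[p] 0 = 0 ∧ IsAttractingCycle (f d c) p 0

/-- The number of superattracting parameters of period at most `N` at distance at most `r` from
`c₀`. -/
noncomputable def count (d : ℕ) (c₀ : ℂ) (N : ℕ) (r : ℝ) : ℕ :=
  {c : ℂ | Centre d N c ∧ ‖c - c₀‖ ≤ r}.ncard

/-- The parabolic fixed point. -/
noncomputable def s (d : ℕ) : ℝ := (d : ℝ) ^ (-(1 : ℝ) / (d - 1))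

/-- The cusp. -/
noncomputable def cusp (d : ℕ) : ℝ := s d - s d ^ d

/-- The coefficient of the second order at the parabolic fixed point. -/
noncomputable def A (d : ℕ) : ℝ := (d - 1) / (2 * s d)

/-- Let `d ≥ 2`.

(0) `s d` is a fixed point of `z ^ d + cusp d` of multiplier one, `cusp d` is a boundary point of the
Multibrot set, `cusp 2 = 1 / 4`, `A 2 = 1`, and there are finitely many superattracting parameters of
period at most `N`.

(1) For every `0 < δ ≤ 1` there are `r₀, C > 0` such that for all `0 < r ≤ r₀` and all `N ≥ 1`: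
there is no superattracting parameter of period at most `N` at distance at most `r` from the cusp if
`N √(A r) ≤ (1 - δ) π`; their number is at most
`C N (1 + d ^ N exp (- (1 - δ) π log d / √(A r)))`; and
`d ^ N exp (- (1 + δ) π log d / √(A r)) ≤ C N (count + 1)`.

(2) `(1 / N) log (count d cusp N ((a / N) ^ 2))` tends to `(1 - π / (√A a)) log d` for every
`a > π / √A`, and `count d cusp N ((a / N) ^ 2) = 0` for `0 < a < π / √A` and all large `N`.

(3) `N ^ 2` times the distance from the cusp to the superattracting parameters of period at most `N`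
tends to `π ^ 2 / A`. -/
theorem result (d : ℕ) (hd : 2 ≤ d) :
    (f d (cusp d) (s d) = s d ∧ deriv (f d (cusp d)) (s d) = 1 ∧
      (cusp d : ℂ) ∈ frontier (multibrotSet d) ∧ cusp 2 = 1 / 4 ∧ A 2 = 1 ∧
      ∀ N : ℕ, {c : ℂ | Centre d N c}.Finite) ∧
    (∀ δ : ℝ, 0 < δ → δ ≤ 1 → ∃ r₀ C : ℝ, 0 < r₀ ∧ 0 < C ∧ ∀ r : ℝ, 0 < r → r ≤ r₀ →
      ∀ N : ℕ, 1 ≤ N →
        (N * √(A d * r) ≤ (1 - δ) * Real.pi → count d (cusp d) N r = 0) ∧
        (count d (cusp d) N r : ℝ) ≤ C * (N * (1 + (d : ℝ) ^ N *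
          Real.exp (-((1 - δ) * (Real.pi * Real.log d / √(A d * r)))))) ∧
        (d : ℝ) ^ N * Real.exp (-((1 + δ) * (Real.pi * Real.log d / √(A d * r)))) ≤
          C * (N * (count d (cusp d) N r + 1))) ∧
    (∀ a : ℝ, Real.pi / √(A d) < a →
      Tendsto (fun N : ℕ => Real.log (count d (cusp d) N ((a / N) ^ 2)) / N) atTop
        (𝓝 ((1 - Real.pi / (√(A d) * a)) * Real.log d))) ∧
    (∀ a : ℝ, 0 < a → a < Real.pi / √(A d) →
      ∀ᶠ N : ℕ in atTop, count d (cusp d) N ((a / N) ^ 2) = 0) ∧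
    Tendsto (fun N : ℕ => (N : ℝ) ^ 2 * infDist (cusp d : ℂ) {c : ℂ | Centre d N c}) atTop
      (𝓝 (Real.pi ^ 2 / A d)) := by
  have hs : ∀ d : ℕ, 2 ≤ d → s d = Pool.Agent.H712R2.sr d := by
    intro d hd
    have hd0 : (0 : ℝ) < d := by exact_mod_cast (by omega : 0 < d)
    unfold s Pool.Agent.H712R2.sr
    rw [Real.rpow_def_of_pos hd0]
    congr 1
    ring
  have hcusp : ∀ d : ℕ, 2 ≤ d → cusp d = Pool.Agent.H712R2.rr d := by
    intro d hd
    unfold cusp Pool.Agent.H712R2.rr
    rw [hs d hd]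
  have hA : ∀ d : ℕ, 2 ≤ d → A d = Pool.Agent.Q186.Cusp.AA d := by
    intro d hd
    rw [Pool.Agent.Q186.Cusp.AA_eq hd]
    unfold A
    rw [hs d hd]
  have hcen : ∀ (N : ℕ) (c : ℂ), Centre d N c ↔ Pool.Agent.Q186.Cen.Cn d N c := by
    intro N c
    constructor
    · rintro ⟨p, h1, h2, h3, h4⟩
      exact ⟨p, h1, h2, h3⟩
    · intro h
      obtain ⟨h1, p, h2, h3, h4, h5⟩ := Pool.Agent.Q186.Cen.cn_cycle hd h
      exact ⟨p, h2, h3, h4, h5⟩
  have hcount : ∀ (c₀ : ℂ) (N : ℕ) (r : ℝ), count d c₀ N r = Pool.Agent.Q186.Loc.num d c₀ N r := by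
    intro c₀ N r
    unfold count Pool.Agent.Q186.Loc.num
    simp only [hcen]
  have hs2 : s 2 = 1 / 2 := by
    unfold s
    norm_num
  have hd0 : (d : ℝ) ≠ 0 := by exact_mod_cast (by omega : d ≠ 0)
  simp only [hcount, hcen]
  rw [hcusp d hd, hA d hd]
  refine ⟨⟨?_, ?_, Pool.Agent.Q186.Cusp.cusp_frontier hd, ?_, ?_, ?_⟩, ?_, ?_, ?_, ?_⟩
  · have h1 : s d ^ d + Pool.Agent.H712R2.rr d = s d := by
      rw [← hcusp d hd]
      unfold cusp
      ring
    unfold f
    exact_mod_cast h1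
  · have h1 : deriv (f d (Pool.Agent.H712R2.rr d)) (s d) = d * (s d : ℂ) ^ (d - 1) := by
      unfold f
      simp
    rw [h1]
    have h2 : (d : ℝ) * s d ^ (d - 1) = 1 := by
      rw [hs d hd, Pool.Agent.H712R2.sr_pow hd]
      field_simp
    exact_mod_cast h2
  · unfold cusp
    rw [hs2]
    norm_num
  · unfold A
    rw [hs2]
    norm_num
  · intro N
    exact Pool.Agent.Q186.Loc.finite_Cn d N
  · intro δ hδ hδ1
    obtain ⟨r₁, hr₁, H₁⟩ := Pool.Agent.Q186.Cusp.num_none hd hδ
    obtain ⟨r₂, C₂, hr₂, hC₂, H₂⟩ := Pool.Agent.Q186.Cusp.num_up hd hδ hδ1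
    obtain ⟨r₃, C₃, hr₃, hC₃, H₃⟩ := Pool.Agent.Q186.Cusp.num_down hd hδ hδ1
    refine ⟨min r₁ (min r₂ r₃), C₂ + C₃, lt_min hr₁ (lt_min hr₂ hr₃), by positivity, ?_⟩
    intro r hr hrr N hN
    have h1 : r ≤ r₁ := hrr.trans (min_le_left _ _)
    have h2 : r ≤ r₂ := hrr.trans ((min_le_right _ _).trans (min_le_left _ _))
    have h3 : r ≤ r₃ := hrr.trans ((min_le_right _ _).trans (min_le_right _ _))
    refine ⟨?_, ?_, ?_⟩
    · intro h
      have h4 := H₁ r hr h1 N h
      have h5 : {c : ℂ | Pool.Agent.Q186.Cen.Cn d N c ∧ ‖c - (Pool.Agent.H712R2.rr d : ℂ)‖ ≤ r} =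
          ∅ := by
        rw [Set.eq_empty_iff_forall_notMem]
        rintro c ⟨h6, h7⟩
        have := h4 c h6
        linarith
      unfold Pool.Agent.Q186.Loc.num
      rw [h5, Set.ncard_empty]
    · refine (H₂ r hr h2 N hN).trans ?_
      apply mul_le_mul_of_nonneg_right (by linarith)
      positivity
    · refine (H₃ r hr h3 N hN).trans ?_
      apply mul_le_mul_of_nonneg_right (by linarith)
      positivity
  · intro a ha
    exact Pool.Agent.Q186.Cusp.law_cusp hd ha
  · intro a ha0 ha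
    filter_upwards [Pool.Agent.Q186.Cusp.none_cusp hd ha0 ha] with N hN
    have h5 : {c : ℂ | Pool.Agent.Q186.Cen.Cn d N c ∧ ‖c - (Pool.Agent.H712R2.rr d : ℂ)‖ ≤
        (a / N) ^ 2} = ∅ := by
      rw [Set.eq_empty_iff_forall_notMem]
      rintro c ⟨h6, h7⟩
      have := hN c h6
      linarith
    unfold Pool.Agent.Q186.Loc.num
    rw [h5, Set.ncard_empty]
  · exact Pool.Agent.Q186.Cusp.dist_cusp hd

end Pool.Agent.Results.MP_af9036_an.CuspLaw
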