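import Mathlib
import Pool.Prelude.Def_F_c31e40fa
import Pool.Agent.Q186.Loc.Five

/-!
# The number of superattracting parameters in small discs

For the family `z ^ d + c` let `count c₀ N r` be the number of superattracting parameters of period at
most `N` in the closed disc of centre `c₀` and radius `r`, and `harm c₀ r` the measure of the set of the
angles in `(0, 2π]` whose parameter rays land in the open disc, that is `2π` times the harmonic
measure. In ALL discs centred at boundary points of the Multibrot set, of every radius `r ≤ 1`, and for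
every period `N`, the number `count c₀ N r` is comparable with `d ^ N * harm c₀ r`, up to powers of
`N` and constant factors of the radii. At every parameter `c₀` with a positive Lyapunov exponent `χ`
the number of superattracting parameters of period at most `N` at distance at most `exp (-s N)` has
the exponential growth rate `(1 - s / χ) log d` for `0 < s < χ`, and there are none for `s > χ` and
large `N`.
-/

set_option autoImplicit false

open Filter Topology Set Metric MeasureTheory N62a1eb23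

namespace Pool.Agent.Results.MP_af9036_an.LocalLaw

open Pool.Agent.H713R2 (IsExteriorMap)

/-- The map `z ↦ z ^ d + c`. -/
def f (d : ℕ) (c : ℂ) : ℂ → ℂ := fun z => z ^ d + c

/-- `c` is a superattracting parameter of period at most `N`: the critical point `0` is periodic of a
period `p ≤ N`, and so it lies on an attracting cycle. -/
def Centre (d N : ℕ) (c : ℂ) : Prop :=
  ∃ p : ℕ, 1 ≤ p ∧ p ≤ N ∧ (f d c)^[p] 0 = 0 ∧ IsAttractingCycle (f d c) p 0

/-- The number of superattracting parameters of period at most `N` at distance at most `r` from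
`c₀`. -/
noncomputable def count (d : ℕ) (c₀ : ℂ) (N : ℕ) (r : ℝ) : ℕ :=
  {c : ℂ | Centre d N c ∧ ‖c - c₀‖ ≤ r}.ncard

/-- The measure of the set of the angles `θ` in `(0, 2π]` such that the parameter ray of angle `θ`
lands in the open disc of centre `c₀` and radius `r`. -/
noncomputable def harm (ψ : ℂ → ℂ) (c₀ : ℂ) (r : ℝ) : ℝ :=
  (volume {θ : ℝ | θ ∈ Ioc 0 (2 * Real.pi) ∧ ∃ ζ ∈ ball c₀ r,
    Tendsto (fun ρ : ℝ => ψ (ρ * Complex.exp (θ * Complex.I))) (𝓝[>] 1) (𝓝 ζ)}).toReal

/-- The map `z ^ d + c` has the Lyapunov exponent `χ` at the critical value `c`. -/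
def Lyapunov (d : ℕ) (c : ℂ) (χ : ℝ) : Prop :=
  Tendsto (fun n : ℕ => Real.log ‖deriv ((f d c)^[n]) c‖ / n) atTop (𝓝 χ)

/-- Let `d ≥ 2`. There are finitely many superattracting parameters of period at most `N`, and the
exterior map `ψ` of the Multibrot set exists.

(1) There is a constant `C` such that for every boundary point `c₀` of the Multibrot set, every radius
`0 < r ≤ 1` and every `N ≥ 1`: `d ^ N * harm c₀ (r / 16) ≤ C N (count c₀ N r + 1)` and
`count c₀ N r ≤ C (N ^ 2 + N d ^ N * harm c₀ (3 r))`.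

(2) If `c₀` lies in the Multibrot set and has a Lyapunov exponent `χ > 0`, then `c₀` is a boundary
point, `(1 / N) log (count c₀ N (exp (- s N)))` tends to `(1 - s / χ) log d` for `0 < s < χ`, and
`count c₀ N (exp (- s N)) = 0` for `s > χ` and all large `N`.

(3) For almost every angle the parameter ray lands at a boundary point `c₀` for which this holds with
`χ = log d`: `(1 / N) log (count c₀ N (d ^ (- s N)))` tends to `(1 - s) log d` for `0 < s < 1`, and
`count c₀ N (d ^ (- s N)) = 0` for `s > 1` and all large `N`. -/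
theorem result (d : ℕ) (hd : 2 ≤ d) :
    (∀ N : ℕ, {c : ℂ | Centre d N c}.Finite) ∧
    (∃ ψ : ℂ → ℂ, IsExteriorMap (multibrotSet d) ψ) ∧
    (∃ C : ℝ, 0 < C ∧ ∀ ψ : ℂ → ℂ, IsExteriorMap (multibrotSet d) ψ →
      ∀ c₀ ∈ frontier (multibrotSet d), ∀ r : ℝ, 0 < r → r ≤ 1 → ∀ N : ℕ, 1 ≤ N →
        (d : ℝ) ^ N * harm ψ c₀ (r / 16) ≤ C * (N * (count d c₀ N r + 1)) ∧
        (count d c₀ N r : ℝ) ≤ C * (N ^ 2 + N * (d : ℝ) ^ N * harm ψ c₀ (3 * r))) ∧
    (∀ (χ : ℝ) (c₀ : ℂ), 0 < χ → c₀ ∈ multibrotSet d → Lyapunov d c₀ χ →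
      c₀ ∈ frontier (multibrotSet d) ∧
      (∀ s : ℝ, 0 < s → s < χ →
        Tendsto (fun N : ℕ => Real.log (count d c₀ N (Real.exp (-s * N))) / N) atTop
          (𝓝 (Real.log d * (1 - s / χ)))) ∧
      ∀ s : ℝ, χ < s → ∀ᶠ N : ℕ in atTop, count d c₀ N (Real.exp (-s * N)) = 0) ∧
    ∀ ψ : ℂ → ℂ, IsExteriorMap (multibrotSet d) ψ →
      ∀ᵐ θ : ℝ, ∃ c₀ ∈ frontier (multibrotSet d),
        Tendsto (fun r : ℝ => ψ (r * Complex.exp (θ * Complex.I))) (𝓝[>] 1) (𝓝 c₀) ∧
        (∀ s : ℝ, 0 < s → s < 1 →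
          Tendsto (fun N : ℕ => Real.log (count d c₀ N ((d : ℝ) ^ (-s * N))) / N) atTop
            (𝓝 ((1 - s) * Real.log d))) ∧
        ∀ s : ℝ, 1 < s → ∀ᶠ N : ℕ in atTop, count d c₀ N ((d : ℝ) ^ (-s * N)) = 0 := by
  have hdR : (1 : ℝ) < d := by exact_mod_cast (by omega : 1 < d)
  have hd0 : (0 : ℝ) < d := by linarith
  have hlogd : 0 < Real.log d := Real.log_pos hdR
  have hcen : ∀ (N : ℕ) (c : ℂ), Centre d N c ↔ Pool.Agent.Q186.Cen.Cn d N c := by
    intro N c
    constructor
    · rintro ⟨p, h1, h2, h3, h4⟩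
      exact ⟨p, h1, h2, h3⟩
    · intro h
      obtain ⟨h1, p, h2, h3, h4, h5⟩ := Pool.Agent.Q186.Cen.cn_cycle hd h
      exact ⟨p, h2, h3, h4, h5⟩
  have hcount : ∀ (c₀ : ℂ) (N : ℕ) (r : ℝ), count d c₀ N r = Pool.Agent.Q186.Loc.num d c₀ N r := by
    intro c₀ N r
    unfold count Pool.Agent.Q186.Loc.num
    simp only [hcen]
  have hharm : ∀ (ψ : ℂ → ℂ) (c₀ : ℂ) (r : ℝ), harm ψ c₀ r =
      (volume (Pool.Agent.Y736.HD.Ang ψ c₀ r)).toReal := fun _ _ _ => rfl
  have hlyap : ∀ (χ : ℝ) (c₀ : ℂ), 0 < χ → c₀ ∈ multibrotSet d → Lyapunov d c₀ χ →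
      Pool.Agent.Y298.CA.Lyap d χ c₀ := fun χ c₀ h1 h2 h3 => ⟨h1, h2, h3⟩
  obtain ⟨β, hβ⟩ := Pool.Agent.H713R2.exists_beta (d := d) hd
  refine ⟨?_, ⟨_, Pool.Agent.H713R2.exteriorMap_of_beta hβ⟩, ?_, ?_, ?_⟩
  · intro N
    simp only [hcen]
    exact Pool.Agent.Q186.Loc.finite_Cn d N
  · obtain ⟨Cu, hCu, HU⟩ := Pool.Agent.Q186.Loc.upper hd
    obtain ⟨Cl, hCl, HL⟩ := Pool.Agent.Q186.Loc.lower hd
    refine ⟨Cl + Cu, by positivity, ?_⟩
    intro ψ hψ c₀ hc₀ r hr hr1 N hN
    rw [hharm, hharm, hcount]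
    have h0 : (0 : ℝ) ≤ Pool.Agent.Q186.Loc.num d c₀ N r := Nat.cast_nonneg _
    have h1 := HL ψ hψ c₀ hc₀ r hr hr1 N hN
    have h2 := HU ψ hψ c₀ hc₀ r hr hr1 N hN
    have hV : 0 ≤ (volume (Pool.Agent.Y736.HD.Ang ψ c₀ (3 * r))).toReal := ENNReal.toReal_nonneg
    constructor
    · refine h1.trans ?_
      apply mul_le_mul_of_nonneg_right (by linarith)
      positivity
    · refine h2.trans ?_
      apply mul_le_mul_of_nonneg_right (by linarith)
      positivity
  · intro χ c₀ hχ hc₀ hL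
    have h := hlyap χ c₀ hχ hc₀ hL
    simp only [hcount]
    exact ⟨Pool.Agent.Q186.Loc.lyap_frontier hd h,
      fun s hs hsχ => Pool.Agent.Q186.Loc.law hd h hs hsχ,
      fun s hsχ => Pool.Agent.Q186.Loc.none hd h hsχ⟩
  · intro ψ hψ
    filter_upwards [Pool.Agent.Y272.TY.ae_neg' (Pool.Agent.Y272.TY.typical_all hd hβ)] with θ hθ
    obtain ⟨c₀, A, R, h⟩ := hθ
    have hL := Pool.Agent.Y298.CA.lyap_of_typ hd hβ h
    refine ⟨c₀, h.frontier hd hβ, h.tendsto_psi hβ hψ, ?_, ?_⟩
    · intro s hs hs1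
      simp only [hcount]
      have h1 := Pool.Agent.Q186.Loc.law hd hL (s := s * Real.log d) (by positivity)
        (by nlinarith)
      have e1 : Real.log d * (1 - s * Real.log d / Real.log d) = (1 - s) * Real.log d := by
        rw [mul_div_cancel_right₀ _ hlogd.ne']
        ring
      rw [e1] at h1
      refine h1.congr fun N => ?_
      have e2 : (d : ℝ) ^ (-s * N) = Real.exp (-(s * Real.log d) * N) := by
        rw [Real.rpow_def_of_pos hd0]
        congr 1
        ring
      rw [e2]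
    · intro s hs1
      simp only [hcount]
      have h1 := Pool.Agent.Q186.Loc.none hd hL (s := s * Real.log d) (by nlinarith)
      filter_upwards [h1] with N hN
      have e2 : (d : ℝ) ^ (-s * N) = Real.exp (-(s * Real.log d) * N) := by
        rw [Real.rpow_def_of_pos hd0]
        congr 1
        ring
      rw [e2]
      exact hN

end Pool.Agent.Results.MP_af9036_an.LocalLaw
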